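import Pool.Agent.H80.GEN.Chn

/-!
# The integral of a polynomial in one variable

`adX i p`: its derivative in the variable `i` is `p`.
-/

set_option autoImplicit false

namespace Pool.BXV65

open Finset MvPolynomial Pool.GEN

/-- **The integral in the variable `i`.** -/
noncomputable def adX {σ : Type} (i : σ) (p : MvPolynomial σ ℝ) : MvPolynomial σ ℝ :=
  ∑ s ∈ p.support, monomial (s + Finsupp.single i 1) (coeff s p / ((s i : ℝ) + 1))

theorem pd_adX {σ : Type} (i : σ) (p : MvPolynomial σ ℝ) : pderiv i (adX i p) = p := by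
  classical
  unfold adX
  rw [map_sum]
  conv_rhs => rw [p.as_sum]
  refine Finset.sum_congr rfl fun s _ => ?_
  rw [pderiv_monomial, add_tsub_cancel_right]
  congr 1
  have h : ((s i : ℝ) + 1) ≠ 0 := by positivity
  simp only [Finsupp.coe_add, Pi.add_apply, Finsupp.single_eq_same, Nat.cast_add, Nat.cast_one]
  field_simp

theorem deg_adX {σ : Type} (i : σ) (p : MvPolynomial σ ℝ) :
    (adX i p).totalDegree ≤ p.totalDegree + 1 := by
  classical
  unfold adX
  refine (totalDegree_finsetSum _ _).trans (Finset.sup_le fun s hs => ?_)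
  refine (totalDegree_monomial_le _ _).trans ?_
  have h1 := le_totalDegree hs
  have h2 : ((s + Finsupp.single i 1).sum fun _ e => e) = (s.sum fun _ e => e) + 1 := by
    rw [Finsupp.sum_add_index' (fun _ => rfl) (fun _ _ _ => rfl), Finsupp.sum_single_index rfl]
  exact (le_of_eq h2).trans (by omega)

theorem vars_adX {σ : Type} [DecidableEq σ] (i : σ) (p : MvPolynomial σ ℝ) :
    (adX i p).vars ⊆ insert i p.vars := by
  unfold adX
  refine (vars_sum_subset _ _).trans (Finset.biUnion_subset.2 fun s hs => ?_)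
  intro o ho
  by_cases h0 : coeff s p / ((s i : ℝ) + 1) = 0
  · rw [h0] at ho
    simp at ho
  rw [vars_monomial h0, Finsupp.mem_support_iff, Finsupp.add_apply] at ho
  rw [Finset.mem_insert]
  by_cases h1 : o = i
  · exact Or.inl h1
  · refine Or.inr ((mem_vars_iff_mem_support o).2 ⟨s, hs, ?_⟩)
    rw [Finsupp.mem_support_iff]
    intro h2
    rw [h2, Finsupp.single_eq_of_ne h1] at ho
    exact ho rfl

/-- A polynomial which depends on some variables only has only these variables. -/
theorem vars_of_dep {m : ℕ} {c : ℕ → Fin m} {r : ℕ} {G : MvPolynomial (Option (Fin m)) ℝ}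
    (h : DepC c r G) {o : Option (Fin m)} (ho : o ∈ G.vars) :
    o = none ∨ ∃ l < r, o = some (c l) := by
  classical
  by_contra hne
  rw [not_or] at hne
  obtain ⟨hn, hs⟩ := hne
  have hs' : ∀ l < r, o ≠ some (c l) := fun l hl he => hs ⟨l, hl, he⟩
  have h1 : G = bind₁ (fun o' : Option (Fin m) => if o' = o then 0 else X o') G := by
    refine MvPolynomial.funext fun b => ?_
    have h3 : eval b (bind₁ (fun o' : Option (Fin m) => if o' = o then 0 else X o') G) =
        eval (fun o' => eval b (if o' = o then 0 else X o')) G :=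
      eval₂Hom_bind₁ (RingHom.id ℝ) b _ G
    rw [h3]
    refine h _ _ ?_ fun l hl => ?_
    · rw [if_neg (fun h => hn h.symm), eval_X]
    · rw [if_neg (fun h => hs' l hl h.symm), eval_X]
  rw [h1] at ho
  obtain ⟨o', h2, h3⟩ := MvPolynomial.mem_vars_bind₁ _ _ ho
  by_cases h4 : o' = o
  · rw [if_pos h4] at h3
    simp at h3
  · rw [if_neg h4, vars_X, mem_singleton] at h3
    exact h4 h3.symm

theorem dep_adX {m : ℕ} {c : ℕ → Fin m} {r : ℕ} {p : MvPolynomial (Option (Fin m)) ℝ}
    (h : DepC c (r + 1) p) : DepC c (r + 1) (adX (some (c r)) p) := by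
  classical
  intro b b' h0 hb
  refine MvPolynomial.hom_congr_vars (f₁ := eval b) (f₂ := eval b') ?_ ?_ rfl
  · ext x
    simp
  · intro o ho _
    rw [eval_X, eval_X]
    have h1 := vars_adX _ _ ho
    rw [Finset.mem_insert] at h1
    rcases h1 with rfl | h1
    · exact hb r (Nat.lt_succ_self r)
    · rcases vars_of_dep h h1 with rfl | ⟨l, hl, rfl⟩
      · exact h0
      · exact hb l hl

end Pool.BXV65
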