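import Pool.Agent.H65.BXV.Two

/-!
# The closed slope from values: the slopes of all windows

`blx_evM`: `blx_ev` with a closed slope natural at an earlier window.
-/

set_option autoImplicit false

namespace Pool.BXV65

open Finset Real MvPolynomial
open Pool.Agent.H49.Ent Pool.Agent.H32.Dense Pool.STK Pool.KA Pool.KSAT Pool.K2S Pool.PB Pool.S6C
open Pool.GEN Pool.CHT Pool.CHX Pool.ISO Pool.D2R Pool.CR99
open Pool.GRD (LbP)
open Pool.D2F (grd)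

/-- **The label of the first window** of a chain of balls from a closed slope at the last one, natural
at the window `Mp`; the slopes of the windows `i ≤ Mp`. -/
theorem blx_evM (D r : ℕ) : ∃ C : ℕ, 1 ≤ C ∧ ∀ {m J : ℕ} {F : Fam m J} {c : ℕ → Fin m}
    {Dr M Mp K₁ P₁ P Y M' : ℕ} {C₀ a Eb ηm : ℝ} {o η σ : ℕ → ℝ} {lv b : ℕ → ℕ → ℝ}
    {κ : ℝ} {z : ℕ → ℕ → ℕ} {B : F.Ω → Prop} {g₀ : ℕ → ℕ → ℕ}
    {G : ℕ → PtT F → ℕ → MvPolynomial (Option (Fin m)) ℝ}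
    {H : ℕ → LnT F → ℕ → MvPolynomial (Option (Fin m)) ℝ}
    (_ : WinB F c (r + 1) D Dr M 0 C₀ a Eb ηm o η σ lv b κ z B g₀ G H) {E : ℕ → ℝ}
    {X₁ : ℝ} {V : Type} {z₁ : PtT F → V} {z₁' : LnT F → V} {G₁ : V → MvPolynomial (Option (Fin m)) ℝ}
    {CL : LnT F → MvPolynomial (Option (Fin m)) ℝ} {Cp : PtT F → MvPolynomial (Option (Fin m)) ℝ},
    Set.InjOn c (Set.Iio (r + 2)) → D ≤ Dr → K₁ ≤ D → κ ≤ 1 / 2 →
    (∀ k < M, z k 0 = ⌊o (k + 1) * J⌋₊ - ⌊o k * J⌋₊ ∧ o k ≤ o (k + 1)) →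
    C₀ * (ηm * J) ≤ Y → 3 ≤ Y → M ≤ 2 ^ M' →
    (∀ k < M, ∀ l ≤ r + 1, (lv (k + 1) l - lv k l) * J ≤ Y ∧ (lv k l - lv (k + 1) l) * J ≤ Y) →
    (∀ i ≤ Mp, ∀ k, i ≤ k → k ≤ M → (lv k r - lv k (r + 1)) * J ≤ E i) →
    (∀ i ≤ Mp, E Mp ≤ E i) → Mp ≤ M → ηm * J ≤ X₁ →
    LbP F ((range (r + 1)).image c) (c (r + 1)) K₁ J ⌊o M * J⌋₊ P₁ B z₁ z₁' G₁ →
    lv M (r + 1) * J - X₁ ≤ P₁ →
    (∀ s, (CL s).totalDegree + 1 ≤ D) → (∀ y, (Cp y).totalDegree + 1 ≤ D) →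
    (∀ s, DepC c (r + 1) (CL s)) → (∀ y, DepC c (r + 1) (Cp y)) →
    (∀ ω, B ω → Cp (ptr F J ω) = CL (slam F ⌊o 0 * J⌋₊ ω)) →
    (∀ ω, B ω → |eval (bt F ω) (pderiv (some (c r)) (G₁ (z₁' (slam F ⌊o M * J⌋₊ ω)))) -
      eval (bt F ω) (CL (slam F ⌊o 0 * J⌋₊ ω))| ≤ (2 : ℝ) ^ (E Mp + X₁)) →
    P + (C + 3) * Y + (E 0 + X₁ + M') ≤ lv 0 r * J →
    ∃ B₃ : F.Ω → Prop, Sub B₃ B ∧ Pe F.p B ≤ 4 * Pe F.p B₃ ∧
      ∃ (zz : PtT F → BmV m c r D) (zz' : LnT F → BmV m c r D),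
        LbP F ((range (r + 1)).image c) (c (r + 1)) (bmd D) J ⌊o 0 * J⌋₊ P B₃ zz zz' bmG ∧
        (∀ s x, eval x (pderiv (some (c r)) (bmG (zz' s))) = eval x (CL s)) ∧
        ∀ i ≤ Mp, ∀ ω, B₃ ω →
          |eval (bt F ω) (pderiv (some (c r)) (H i (slam F ⌊o i * J⌋₊ ω) (r + 1))) -
            eval (bt F ω) (CL (slam F ⌊o 0 * J⌋₊ ω))| ≤ (2 : ℝ) ^ (E i + X₁ + M' + C * Y) := by
  classical
  obtain ⟨C₁, hC₁, htel⟩ := Pool.TN.winb_tel D (r + 1)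
  obtain ⟨C₂, htwo⟩ := slp_two D r
  refine ⟨C₁ + C₂ + 2, by omega, ?_⟩
  intro m J F c Dr M Mp K₁ P₁ P Y M' C₀ a Eb ηm o η σ lv b κ z B g₀ G H W E X₁ V z₁ z₁' G₁ CL Cp hc
    hDr hK₁ hκ hz hC₀Y hY3 hM hlv hE hEM hMpM hηX hl hP₁ hdL hdp hpL hpp hclo hsl hPn
  have hJ : (0 : ℝ) ≤ J := Nat.cast_nonneg J
  have h2 : (0 : ℝ) < 2 := by norm_num
  have hc1 : Set.InjOn c (Set.Iio (r + 1)) := hc.mono fun y hy => by
    rw [Set.mem_Iio] at hy ⊢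
    omega
  have hYR : (3 : ℝ) ≤ Y := by exact_mod_cast hY3
  have hη0 : 0 ≤ ηm * J := mul_nonneg ((W.hη 0 (Nat.zero_le _)).1.trans (W.hη 0
    (Nat.zero_le _)).2) hJ
  have hηY : ηm * J ≤ Y := (le_mul_of_one_le_left hη0 W.C1).trans hC₀Y
  have hhJ : ∀ k ≤ M, (⌊η k * J⌋₊ : ℝ) ≤ ηm * J := fun k hk =>
    (Nat.floor_le (mul_nonneg (W.hη k hk).1 hJ)).trans
      (mul_le_mul_of_nonneg_right (W.hη k hk).2 hJ)
  have hg : ∀ k ≤ M, ∀ l ≤ r + 1, lv k l * J - ηm * J ≤ g₀ k l ∧ (g₀ k l : ℝ) ≤ lv k l * J :=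
    fun k hk l hl => by
      obtain ⟨-, -, q1, q2⟩ := W.g_num hk hl
      exact ⟨q1, q2⟩
  obtain ⟨Z, hZ⟩ : ∃ Z : ℕ → ℝ, Z = fun i => E i + X₁ + M' + (C₁ + C₂ + 1) * Y := ⟨_, rfl⟩
  have hC₁Y : 1 * (Y : ℝ) ≤ C₁ * Y :=
    mul_le_mul_of_nonneg_right (by exact_mod_cast hC₁) (Nat.cast_nonneg _)
  have hC₂Y : (C₂ : ℝ) * 1 ≤ C₂ * Y := mul_le_mul_of_nonneg_left (by linarith) (Nat.cast_nonneg _)
  have hM'0 : (0 : ℝ) ≤ M' := Nat.cast_nonneg _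
  have hX0 : 0 ≤ X₁ := hη0.trans hηX
  have hZe : ∀ i, Z i = E i + X₁ + M' + C₁ * Y + C₂ * Y + Y := fun i => by rw [hZ]; ring
  have hC₂0 : (0 : ℝ) ≤ C₂ := Nat.cast_nonneg _
  -- the telescoping
  have ht1 : ∀ i ≤ Mp, ∀ ω, B ω → |eval (bt F ω) (pderiv (some (c r)) (G M (ptr F J ω) (r + 1))) -
      eval (bt F ω) (pderiv (some (c r)) (G i (ptr F J ω) (r + 1)))| ≤ (2 : ℝ) ^ Z i := by
    intro i hi ω hω
    have htel' := htel W (f := fun k => i + k) (jj := fun _ => 0) (n := M - i) (i := r + 1) (Y := Y)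
      (ρ := (2 : ℝ) ^ (E i + ηm * J)) hc (by omega) le_rfl (fun k hk => by omega)
      (fun k hk => ⟨le_rfl, (hz (i + k) (by omega)).1, (hz (i + k) (by omega)).2⟩) hC₀Y hY3
      (fun k hk => hlv (i + k) (by omega)) (fun k hk => by
        have q1 := (hg (i + k) (by omega) r (by omega)).2
        have q2 := (hg (i + k) (by omega) (r + 1) le_rfl).1
        have q3 := hE i hi (i + k) (by omega) (by omega)
        rw [← Real.rpow_natCast, ← Real.rpow_natCast, ← Real.rpow_sub h2]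
        refine pw2 ?_
        show (g₀ (i + k) r : ℝ) - g₀ (i + k) (r + 1) ≤ _
        have e1 : (lv (i + k) r - lv (i + k) (r + 1)) * (J : ℝ) =
          lv (i + k) r * J - lv (i + k) (r + 1) * J := by ring
        rw [e1] at q3
        linarith)
    have hiM : i + (M - i) = M := by omega
    have h5 := htel' ω hω
    beta_reduce at h5
    rw [hiM, Nat.add_zero] at h5
    refine h5.trans ?_
    have q1 : ((M - i : ℕ) : ℝ) ≤ (2 : ℝ) ^ (M' : ℝ) := by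
      rw [Real.rpow_natCast]
      have : M - i ≤ 2 ^ M' := (Nat.sub_le _ _).trans hM
      exact_mod_cast this
    calc ((M - i : ℕ) : ℝ) * (2 ^ (C₁ * Y) * (2 : ℝ) ^ (E i + ηm * J)) ≤
        (2 : ℝ) ^ (M' : ℝ) * (2 ^ (C₁ * Y) * (2 : ℝ) ^ (E i + ηm * J)) :=
          mul_le_mul_of_nonneg_right q1 (by positivity)
      _ = (2 : ℝ) ^ ((M' : ℝ) + (((C₁ * Y : ℕ) : ℝ) + (E i + ηm * J))) := by
          rw [Real.rpow_add h2 (M' : ℝ), Real.rpow_add h2 ((C₁ * Y : ℕ) : ℝ),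
            Real.rpow_natCast 2 (C₁ * Y)]
      _ ≤ _ := pw2 (by
          push_cast
          rw [hZe]
          have : 0 ≤ (C₂ : ℝ) * Y := by positivity
          linarith)
  -- the caller's label
  obtain ⟨B₂, b1, b2, b3⟩ := htwo (Dr := Dr) (κ := κ) hc1 hDr hK₁ (W.ev M le_rfl).ball
    (W.ev M le_rfl).cls (W.ev M le_rfl).relb hl (fun ω h => h) (by
      have := mul_le_mul_of_nonneg_right hκ (Pe_nonneg F.isLaw B)
      have h0 := Pe_nonneg F.isLaw B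
      linarith)
  have ht2 : ∀ ω, B₂ ω → |eval (bt F ω) (pderiv (some (c r)) (G₁ (z₁' (slam F ⌊o M * J⌋₊ ω)))) -
      eval (bt F ω) (pderiv (some (c r)) (G M (ptr F J ω) (r + 1)))| ≤ (2 : ℝ) ^ Z Mp := by
    intro ω hω
    refine (b3 ω hω).trans ?_
    have q1 := (hg M le_rfl r (by omega)).2
    have q2 := (hg M le_rfl (r + 1) le_rfl).1
    have q3 := hE Mp le_rfl M hMpM le_rfl
    have e1 : (lv M r - lv M (r + 1)) * (J : ℝ) = lv M r * J - lv M (r + 1) * J := by ring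
    rw [e1] at q3
    have u1 : (1 : ℝ) / 2 ^ g₀ M (r + 1) ≤ (2 : ℝ) ^ (-(lv M (r + 1) * J) + X₁) := by
      rw [one_div, ← Real.rpow_natCast, ← Real.rpow_neg h2.le]
      exact pw2 (by linarith)
    have u2 : (1 : ℝ) / 2 ^ P₁ ≤ (2 : ℝ) ^ (-(lv M (r + 1) * J) + X₁) := by
      rw [one_div, ← Real.rpow_natCast, ← Real.rpow_neg h2.le]
      exact pw2 (by linarith)
    calc _ ≤ 2 ^ C₂ * (2 ^ ⌊η M * J⌋₊ * ((2 : ℝ) ^ (-(lv M (r + 1) * J) + X₁) +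
          (2 : ℝ) ^ (-(lv M (r + 1) * J) + X₁))) * 2 ^ g₀ M r := by gcongr
      _ = (2 : ℝ) ^ ((C₂ : ℝ) + ((⌊η M * J⌋₊ : ℝ) + (1 + (-(lv M (r + 1) * J) + X₁))) +
          (g₀ M r : ℝ)) := by
          rw [← two_mul, Real.rpow_add h2 _ (g₀ M r : ℝ), Real.rpow_add h2 (C₂ : ℝ),
            Real.rpow_add h2 (⌊η M * J⌋₊ : ℝ), Real.rpow_add h2 1,
            Real.rpow_natCast, Real.rpow_natCast, Real.rpow_natCast, Real.rpow_one]
      _ ≤ _ := pw2 (by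
          have q4 := hhJ M le_rfl
          rw [hZe]
          linarith)
  -- the slopes at the windows
  have hKi : ∀ i ≤ Mp, ∀ ω, B₂ ω →
      |eval (bt F ω) (pderiv (some (c r)) (H i (slam F ⌊o i * J⌋₊ ω) (r + 1))) -
      eval (bt F ω) (CL (slam F ⌊o 0 * J⌋₊ ω))| ≤ (2 : ℝ) ^ (Z i + 2) := by
    intro i hi ω hω
    have hωB := b1 ω hω
    rw [← (W.ev i (hi.trans hMpM)).cls ω hωB (r + 1) (by omega)]
    have q1 := ht1 i hi ω hωB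
    have hZi : Z Mp ≤ Z i := by
      rw [hZe, hZe]
      linarith [hEM i hi]
    have q2 := (ht2 ω hω).trans (pw2 hZi)
    have q3 := (hsl ω hωB).trans (pw2 (show E Mp + X₁ ≤ Z i by
      rw [hZe]
      have : 0 ≤ (C₂ : ℝ) * Y := by positivity
      linarith [hEM i hi]))
    have e2 : (2 : ℝ) ^ (Z i + 2) = 4 * (2 : ℝ) ^ Z i := by
      rw [Real.rpow_add h2]
      norm_num
      ring
    have h0 : (0 : ℝ) < (2 : ℝ) ^ Z i := by positivity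
    rw [e2]
    rw [abs_le] at q1 q2 q3 ⊢
    constructor <;> linarith [q1.1, q1.2, q2.1, q2.2, q3.1, q3.2]
  have hK : ∀ ω, B₂ ω → |eval (bt F ω) (pderiv (some (c r)) (H 0 (slam F ⌊o 0 * J⌋₊ ω) (r + 1))) -
      eval (bt F ω) (pderiv (some (c r)) (adX (some (c r)) (CL (slam F ⌊o 0 * J⌋₊ ω))))| ≤
      (2 : ℝ) ^ (Z 0 + 2) := by
    intro ω hω
    rw [pd_adX]
    exact hKi 0 (Nat.zero_le _) ω hω
  have hA1 : ∀ s, (adX (some (c r)) (CL s)).totalDegree ≤ D := fun s =>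
    (deg_adX _ _).trans (hdL s)
  have hA2 : ∀ y, (adX (some (c r)) (Cp y)).totalDegree ≤ D := fun y =>
    (deg_adX _ _).trans (hdp y)
  have h0b := (W.ev 0 (Nat.zero_le _)).ball
  have h0c := (W.ev 0 (Nat.zero_le _)).cls
  obtain ⟨B₃, c1, c2, c3⟩ := pol_box (ML := fun s => adX (some (c r)) (CL s))
    (Mp := fun y => adX (some (c r)) (Cp y)) (K := (2 : ℝ) ^ (Z 0 + 2)) (B₁ := B₂) hDr
    h0b.degG h0b.degH h0b.depG h0b.depH h0c (W.ev 0 (Nat.zero_le _)).relb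
    hA1 hA2 (fun s => dep_adX (hpL s)) (fun y => dep_adX (hpp y)) b1 (by
      have := mul_le_mul_of_nonneg_right hκ (Pe_nonneg F.isLaw B)
      linarith) (fun ω hω => by
      rw [hclo ω (b1 ω hω)]) hK (by positivity)
  have hB₃ : Sub B₃ B := fun ω hω => b1 ω (c1 ω hω)
  obtain ⟨zz, zz', hlb, hlC⟩ := bmg_lbp (F := F) (c := c) (r := r) (D := D) (P := P)
    (K₁ := 2 ^ ⌊η 0 * J⌋₊ * (2 : ℝ) ^ (Z 0 + 2)) (h0b.sub hB₃) (fun ω hω => h0c ω (hB₃ ω hω)) hA1 hA2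
    (fun s => dep_adX (hpL s)) (fun y => dep_adX (hpp y)) (fun ω hω => by
      rw [hclo ω (hB₃ ω hω)]) c3 hc1 (by
      obtain ⟨q1, -⟩ := hg 0 (Nat.zero_le _) r (by omega)
      obtain ⟨q2, -⟩ := hg 0 (Nat.zero_le _) (r + 1) le_rfl
      have q3 := hE 0 (Nat.zero_le _) 0 le_rfl (Nat.zero_le _)
      have q4 := hhJ 0 (Nat.zero_le _)
      have e1 : (lv 0 r - lv 0 (r + 1)) * (J : ℝ) = lv 0 r * J - lv 0 (r + 1) * J := by ring
      rw [e1] at q3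
      have e3 : ((C₁ + C₂ + 2 : ℕ) : ℝ) = C₁ + C₂ + 2 := by push_cast; ring
      rw [e3] at hPn
      have e4 : ((C₁ : ℝ) + C₂ + 2 + 3) * Y = C₁ * Y + C₂ * Y + 5 * Y := by ring
      rw [e4] at hPn
      have hC₂Y0 : 0 ≤ (C₂ : ℝ) * Y := by positivity
      have e9 : (1 : ℝ) / 2 ^ P = (2 : ℝ) ^ (-(P : ℝ) - 1) + (2 : ℝ) ^ (-(P : ℝ) - 1) := by
        rw [← two_mul, Real.rpow_sub_one h2.ne', Real.rpow_neg h2.le, Real.rpow_natCast]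
        field_simp
      rw [e9]
      refine add_le_add ?_ ?_
      · rw [one_div, ← Real.rpow_natCast, ← Real.rpow_neg h2.le]
        exact pw2 (by linarith)
      · have e10 : (2 : ℝ) ^ ⌊η 0 * J⌋₊ * (2 : ℝ) ^ (Z 0 + 2) * (1 / 2 ^ g₀ 0 r) =
            (2 : ℝ) ^ ((⌊η 0 * J⌋₊ : ℝ) + (Z 0 + 2) - (g₀ 0 r : ℝ)) := by
          rw [Real.rpow_sub h2, Real.rpow_add h2 _ (Z 0 + 2), Real.rpow_natCast, Real.rpow_natCast]
          ring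
        rw [e10]
        exact pw2 (by rw [hZe]; linarith))
  refine ⟨B₃, hB₃, by linarith, zz, zz', hlb, fun s x => ?_, fun i hi ω hω => ?_⟩
  · rw [bmg_dir hc1, hlC, pd_adX]
  · refine (hKi i hi ω (c1 ω hω)).trans (pw2 ?_)
    rw [hZe]
    push_cast
    have e4 : ((C₁ : ℝ) + C₂ + 2) * Y = C₁ * Y + C₂ * Y + 2 * Y := by ring
    rw [e4]
    linarith

end Pool.BXV65
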