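import Pool.Agent.H65.BXV.Two
import Pool.Agent.H99.D2.Bld
import Pool.Agent.H18.PN.Pzs

/-!
# The closed slope from values

`SlX`: on a part of every event there is a polynomial, closed at the window `w`, near the slopes (in the
direction `c r`) of closed labels of the coordinate `r + 1` at the windows `v k`. `blx_val`: then `BlX`.
-/

set_option autoImplicit false

namespace Pool.BXV65

open Finset Real MvPolynomial
open Pool.Agent.H49.Ent Pool.Agent.H32.Dense Pool.STK Pool.KA Pool.KSAT Pool.K2S Pool.PB Pool.S6C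
open Pool.GEN Pool.CHT Pool.CHX Pool.ISO Pool.D2R Pool.CR99 Pool.PKG
open Pool.GRD (LbP)

variable {m : ℕ}

/-- **Closed slopes**: on a part of every event there is a polynomial over the time and the places `≤ r`,
closed at the window `w`, which is near the derivatives in the direction `c r` of closed labels of the
coordinate `r + 1` at the windows `v k`. -/
def SlX (S : PCl m) (c : ℕ → Fin m) (r Dm K₁ : ℕ) (w : ℝ) (n : ℕ) (v p₁ x₀ : ℕ → ℝ)
    (κ : ℝ) : Prop :=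
  Bas S (fun J F A => ∃ B : F.Ω → Prop, Sub B A ∧ Pe F.p A ≤ κ * Pe F.p B ∧
    ∃ (CL : LnT F → MvPolynomial (Option (Fin m)) ℝ)
      (Cp : PtT F → MvPolynomial (Option (Fin m)) ℝ),
      (∀ s, (CL s).totalDegree ≤ Dm) ∧ (∀ y, (Cp y).totalDegree ≤ Dm) ∧
      (∀ s, DepC c (r + 1) (CL s)) ∧ (∀ y, DepC c (r + 1) (Cp y)) ∧
      (∀ ω, B ω → Cp (ptr F J ω) = CL (slam F ⌊w * J⌋₊ ω)) ∧
      ∀ k < n, ∃ (V₁ : Type) (z₁ : PtT F → V₁) (z₁' : LnT F → V₁)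
        (G₁ : V₁ → MvPolynomial (Option (Fin m)) ℝ) (P₁ : ℕ),
        LbP F ((range (r + 1)).image c) (c (r + 1)) K₁ J ⌊v k * J⌋₊ P₁ B z₁ z₁' G₁ ∧
        p₁ k * J ≤ P₁ ∧
        ∀ ω, B ω → |eval (bt F ω) (pderiv (some (c r)) (G₁ (z₁' (slam F ⌊v k * J⌋₊ ω)))) -
          eval (bt F ω) (CL (slam F ⌊w * J⌋₊ ω))| ≤ 2 ^ (x₀ k * J))

set_option maxHeartbeats 4000000 in
/-- **The closed slope from values**: at a record with the windows `t + W i q`, `i ≤ M`, in the second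
list, `W` increasing with small steps, the slope of the place `r` at most the one of the place `r + 1`, any
kinds: closed slopes of the labels at `t + W M q` (and other windows) give a closed slope of a label of the
window `t + W 0 q` of the natural precision. -/
theorem blx_val (m r S₀ : ℕ) (hS₀ : 1 ≤ S₀) (Dm K₁ : ℕ) : ∃ Dg : ℕ, ∀ {ρ a₀ : ℝ}, 0 < ρ → 0 ≤ a₀ →
    ∃ del ρ' ε₀ : ℝ, 0 < del ∧ 0 < ρ' ∧ ρ' ≤ ρ ∧ 0 < ε₀ ∧
    ∀ {S : PCl m} {al : ℝ} {g₀ : ℝ → ℝ} {P : List (Fin m) × Fin m → ℝ → ℝ → ℝ}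
    {θ : ℝ} {P₂ : ℕ → List (Fin m) × Fin m → ℝ → ℝ → ℝ} {θ₂ Eb e₂ : ℕ → ℝ}
    {c : ℕ → Fin m} {Pt : ℝ → ℝ → ℝ} {rt : ℝ → ℝ} {h K₀ g : ℝ} {L T : ℕ → ℝ → ℝ → ℝ}
    {Sl : ℕ → ℝ} {κ : ℕ → Kg} {G : Set ℝ} {N : ℕ} {A V : ℕ → ℝ} {S₂ N' : ℕ} {V' : ℕ → ℝ}
    {K ε q t : ℝ}, RecG S al g₀ P θ P₂ θ₂ Eb e₂ c Pt rt h K₀ g L T Sl κ G S₀ N A V S₂ N' V' K ε
      q t → r + 1 < m → (∀ l ≤ r + 1, |Sl l| ≤ a₀) → Sl r ≤ Sl (r + 1) → ε ≤ ε₀ →
    ∀ (M : ℕ) (W : ℕ → ℝ), (∀ i < M, W i < W (i + 1) ∧ W (i + 1) ≤ W i + del) →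
    (∀ i ≤ M, |W i| + 1 ≤ K) → (∀ i ≤ M, ∃ j < N', V' j = W i) →
    ∀ (n : ℕ) (v p₁ x₀ : ℕ → ℝ) (κ₁ : ℝ), 0 < n → 0 < κ₁ → v 0 = t + W M * q →
    L (r + 1) (v 0) (v 0) - ρ' * q ≤ p₁ 0 →
    x₀ 0 ≤ L r (v 0) (v 0) - L (r + 1) (v 0) (v 0) + ρ' * q →
    SlX S c r Dm K₁ (t + W 0 * q) n v p₁ x₀ κ₁ →
    ∃ κ' : ℝ, 0 < κ' ∧ BlX S c r Dg Dg (t + W 0 * q)
      (L (r + 1) (t + W 0 * q) (t + W 0 * q) - ρ * q) n v p₁ x₀ κ' := by
  classical
  obtain ⟨D₀, hD₀, hwin⟩ := winb_con m (r + 1) S₀ (by omega) hS₀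
  obtain ⟨D, hD⟩ : ∃ D : ℕ, D = max D₀ (max (Dm + 1) K₁) := ⟨_, rfl⟩
  have hDa : D₀ ≤ D := by rw [hD]; exact le_max_left _ _
  have hDb : Dm + 1 ≤ D := by rw [hD]; exact (le_max_left _ _).trans (le_max_right _ _)
  have hDc : K₁ ≤ D := by rw [hD]; exact (le_max_right _ _).trans (le_max_right _ _)
  obtain ⟨CB, hCB, hwin⟩ := hwin D hDa D le_rfl
  obtain ⟨C, hC, hev⟩ := blx_ev D r
  refine ⟨bmd D, ?_⟩
  intro ρ a₀ hρ ha₀
  obtain ⟨ρ₁, hρ₁⟩ : ∃ ρ₁ : ℝ, ρ₁ = min ρ 1 := ⟨_, rfl⟩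
  have hρ₁0 : 0 < ρ₁ := by rw [hρ₁]; exact lt_min hρ one_pos
  have hρ₁a : ρ₁ ≤ ρ := by rw [hρ₁]; exact min_le_left _ _
  have hρ₁b : ρ₁ ≤ 1 := by rw [hρ₁]; exact min_le_right _ _
  have hC1 : (1 : ℝ) ≤ C := by exact_mod_cast hC
  obtain ⟨Q, hQ⟩ : ∃ Q : ℝ, Q = C + 3 := ⟨_, rfl⟩
  have hQ1 : 4 ≤ Q := by linarith
  obtain ⟨η₁, hη₁⟩ : ∃ η₁ : ℝ, η₁ = ρ₁ / (64 * Q * CB) := ⟨_, rfl⟩
  obtain ⟨del, hdel⟩ : ∃ del : ℝ, del = ρ₁ / (64 * Q * (a₀ + 1)) := ⟨_, rfl⟩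
  obtain ⟨ε₀, hε₀⟩ : ∃ ε₀ : ℝ, ε₀ = ρ₁ / (64 * Q) := ⟨_, rfl⟩
  have hη₁0 : 0 < η₁ := by rw [hη₁]; positivity
  have hdel0 : 0 < del := by rw [hdel]; positivity
  have hε₀0 : 0 < ε₀ := by rw [hε₀]; positivity
  have hη₁e : 64 * (Q * (CB * η₁)) = ρ₁ := by rw [hη₁]; field_simp
  have hdele : 64 * (Q * ((a₀ + 1) * del)) = ρ₁ := by rw [hdel]; field_simp
  have hε₀e : 64 * (Q * ε₀) = ρ₁ := by rw [hε₀]; field_simp
  refine ⟨del, ρ₁ / 8, ε₀, hdel0, by linarith, by linarith, hε₀0, ?_⟩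
  intro S al g₀ P θ P₂ θ₂ Eb e₂ c Pt rt h K₀ g L T Sl κ G N A V S₂ N' V' K ε q t R hrm hSl hab hεε
    M W hW hWK hWV n v p₁ x₀ κ₁ hn hκ₁ hv0 hp0 hx0 hS
  have hq := R.q0
  have hε : 0 ≤ ε := by
    have h1 := R.dL 0 (by omega) t (by
      rw [sub_self, abs_zero]
      have := R.t0
      have := R.t1
      have h2 := (abs_nonneg (W 0)).trans (by linarith [hWK 0 (Nat.zero_le _)] : |W 0| ≤ K)
      positivity)
    have h2 : 0 ≤ ε * q := (abs_nonneg _).trans h1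
    exact nonneg_of_mul_nonneg_left h2 hq
  -- the windows
  obtain ⟨Wx, hWx⟩ : ∃ Wx : ℕ → ℝ, Wx = fun k => if k ≤ M then W k else W M + 1 := ⟨_, rfl⟩
  obtain ⟨o, ho⟩ : ∃ o : ℕ → ℝ, o = fun k => t + Wx k * q := ⟨_, rfl⟩
  have wx1 : ∀ k ≤ M, Wx k = W k := fun k hk => by rw [hWx]; simp only [hk, if_true]
  have wx2 : Wx (M + 1) = W M + 1 := by rw [hWx]; simp
  have hoe : ∀ k, o k = t + Wx k * q := fun k => by rw [ho]
  have hstep : ∀ k ≤ M, Wx k < Wx (k + 1) := by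
    intro k hk
    rcases Nat.lt_or_ge k M with h1 | h1
    · rw [wx1 k hk, wx1 (k + 1) h1]
      exact (hW k h1).1
    · have : k = M := by omega
      rw [this, wx1 M le_rfl, wx2]
      linarith
  have hWm : ∀ j k, j ≤ k → k ≤ M → W j ≤ W k := by
    intro j k hjk
    induction k with
    | zero =>
      intro _
      have : j = 0 := by omega
      rw [this]
    | succ k ih =>
      intro hk
      rcases Nat.lt_or_ge j (k + 1) with h1 | h1
      · exact (ih (by omega) (by omega)).trans (hW k hk).1.le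
      · have : j = k + 1 := by omega
        rw [this]
  have hostep : ∀ k ≤ M, o k < o (k + 1) := fun k hk => by
    rw [hoe, hoe]
    have := mul_lt_mul_of_pos_right (hstep k hk) hq
    linarith
  have hoa : ∀ k ≤ M, o (k + 1) ≤ o (M + 1) := fun k hk => by
    rw [hoe, hoe, wx2]
    have h1 : Wx (k + 1) ≤ W M + 1 := by
      rcases Nat.lt_or_ge k M with h1 | h1
      · rw [wx1 (k + 1) h1]
        have := hWm (k + 1) M h1 le_rfl
        linarith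
      · have : k = M := by omega
        rw [this, wx2]
    have := mul_le_mul_of_nonneg_right h1 hq.le
    linarith
  have hWq : ∀ k ≤ M, |o k - t| ≤ K * q := fun k hk => by
    rw [hoe, add_sub_cancel_left, abs_mul, abs_of_pos hq, wx1 k hk]
    exact mul_le_mul_of_nonneg_right (by linarith [hWK k hk]) hq.le
  have ho0 : o 0 = t + W 0 * q := by rw [hoe, wx1 0 (Nat.zero_le _)]
  have hoM : o M = v 0 := by rw [hv0, hoe, wx1 M le_rfl]
  have ho00 : q ≤ o 0 := by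
    rw [ho0]
    have h1 := R.t0
    have h2 : (|W 0| + 1) * q ≤ K * q := mul_le_mul_of_nonneg_right (hWK 0 (Nat.zero_le _)) hq.le
    have h3 : -|W 0| * q ≤ W 0 * q := mul_le_mul_of_nonneg_right (neg_abs_le _) hq.le
    linarith
  have hinj : Set.InjOn c (Set.Iio (r + 2)) := R.inj.mono fun x hx => by
    rw [Set.mem_Iio] at hx ⊢
    omega
  have hbal : ∀ k ≤ M, BalD S P θ c (r + 1) (L (r + 1)) (o (M + 1)) (o k) S₀ (Eb (r + 1)) := by
    intro k hk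
    obtain ⟨j, hj, hj'⟩ := hWV k hk
    have RT := R.tg (r + 1) (by omega) hrm
    obtain ⟨ρ', vs, e, e₀, E, sg, Q', k1, k2, -⟩ := RT.ptc j hj
    rw [hj'] at k1
    have hok : o k = t + W k * q := by rw [hoe, wx1 k hk]
    refine ⟨(hostep k hk).trans_le (hoa k hk), ⟨ρ', vs, e, e₀, E, sg, Q', by rw [hok]; exact k1,
      k2⟩, fun l hl => ?_⟩
    have h3 := RT.room l hl (o k) (hWq k hk)
    rw [← R.lv_at hrm hl]
    have h5 : o (M + 1) - o k ≤ 3 * K * q := by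
      rw [hoe, hok, wx2]
      have h6 : (W M + 1 - W k) * q ≤ 3 * K * q := by
        refine mul_le_mul_of_nonneg_right ?_ hq.le
        have h7 := hWK k hk
        have h8 := hWK M le_rfl
        have h9 := le_abs_self (W M)
        have h10 := neg_abs_le (W k)
        have h11 := abs_nonneg (W M)
        linarith
      linarith
    linarith
  obtain ⟨KW, bb, hKW, hwin⟩ := hwin (o := o) (η := fun _ => η₁ * q) (σ := fun _ => η₁ * q)
    (ηm := η₁ * q) (r₀ := fun k => (o (k + 1) - o k) / 2) M 0 R.thr R.th0 R.tmh hinj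
    (R.lawL (r + 1) hrm) (R.tg (r + 1) (by omega) hrm).Eb0.le hbal
    (fun k hk => ⟨by positivity, by positivity, le_rfl, by linarith [hostep k hk], le_rfl⟩)
  refine ⟨κ₁ * KW * 4, by positivity, ?_⟩
  -- the sizes
  obtain ⟨M', hM'⟩ : ∃ M' : ℕ, M ≤ 2 ^ M' := ⟨M, Nat.lt_two_pow_self.le⟩
  obtain ⟨J₁, hJ₁⟩ := exists_nat_ge (∑ k ∈ range (M + 1), 2 / (o (k + 1) - o k))
  obtain ⟨J₂, hJ₂⟩ := exists_nat_ge ((8 * (C + 3) * 4 + 8 * M' + 8) / (ρ₁ * q))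
  refine Bas.mono (max J₁ J₂) (Bas.and hS (Pool.GRW.bas_part (hwin (1 / 2) (by norm_num)) hκ₁)) ?_
  rintro J hJ F A₀ ⟨⟨B, b1, b2, CL, Cp, c1, c2, c3, c4, c5, c6⟩, hWn⟩
  have hJ0 : (0 : ℝ) ≤ J := Nat.cast_nonneg J
  have j1 : ∀ k ≤ M, 2 ≤ (o (k + 1) - o k) * J := by
    intro k hk
    have e1 : (J₁ : ℝ) ≤ J := by exact_mod_cast (le_max_left _ _).trans hJ
    have e2 : 2 / (o (k + 1) - o k) ≤ ∑ k ∈ range (M + 1), 2 / (o (k + 1) - o k) :=
      Finset.single_le_sum (f := fun k => 2 / (o (k + 1) - o k)) (fun i hi => by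
        have := hostep i (by
          rw [mem_range] at hi
          omega)
        exact div_nonneg (by norm_num) (by linarith)) (mem_range.2 (by omega))
    have e3 := e2.trans (hJ₁.trans e1)
    have e4 := hostep k hk
    rw [div_le_iff₀ (by linarith)] at e3
    linarith
  have j2 : 8 * (C + 3) * 4 + 8 * M' + 8 ≤ ρ₁ * q * J := by
    have e1 : (J₂ : ℝ) ≤ J := by exact_mod_cast (le_max_right _ _).trans hJ
    have e2 := hJ₂.trans e1
    rw [div_le_iff₀ (by positivity)] at e2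
    linarith
  have hon : ∀ k ≤ M + 1, 0 ≤ o k := by
    intro k hk
    have h1 : ∀ j ≤ M + 1, q ≤ o j := by
      intro j
      induction j with
      | zero => exact fun _ => ho00
      | succ j ih => exact fun hj => (ih (by omega)).trans (hostep j (by omega)).le
    linarith [h1 k hk]
  obtain ⟨B₁, g₁, Gs, Hs, d1, d2, d3⟩ := hWn B b1 b2 (fun k _ => ⌊o (k + 1) * J⌋₊ - ⌊o k * J⌋₊)
    (fun k hk i _ => by
      have h1 := Nat.lt_floor_add_one (o (k + 1) * (J : ℝ))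
      have h2 : (⌊o k * J⌋₊ : ℝ) ≤ o k * J := Nat.floor_le (mul_nonneg (hon k (by omega)) hJ0)
      have h3 : ⌊o k * (J : ℝ)⌋₊ ≤ ⌊o (k + 1) * J⌋₊ :=
        Nat.floor_le_floor (mul_le_mul_of_nonneg_right (hostep k hk).le hJ0)
      have h4 : ⌊o (k + 1) * (J : ℝ)⌋₊ ≤ ⌊o (M + 1) * J⌋₊ :=
        Nat.floor_le_floor (mul_le_mul_of_nonneg_right (hoa k hk) hJ0)
      refine ⟨?_, Nat.sub_le_sub_right h4 _⟩
      rw [Nat.cast_sub h3]
      have h5 := j1 k hk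
      have e1 : (o (k + 1) - o k) / 2 * (J : ℝ) = (o (k + 1) - o k) * J / 2 := by ring
      have e2 : (o (k + 1) - o k) * (J : ℝ) = o (k + 1) * J - o k * J := by ring
      rw [e1]
      linarith)
  obtain ⟨V₁, z₁, z₁', G₁, P₁, l1, l2, l3⟩ := c6 0 hn
  -- the level bounds
  have hL : ∀ k ≤ M, ∀ l ≤ r + 1, |L l (o k) (o k) - L l t t - Sl l * (o k - t)| ≤ ε * q :=
    fun k hk l hl => R.dL l (by omega) _ (hWq k hk)
  have hlvE : ∀ k l, l ≤ r + 1 → lvN P c (r + 1) (L (r + 1)) l (o k) (o k) = L l (o k) (o k) :=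
    fun k l hl => by rw [← R.lv_at hrm hl]
  obtain ⟨Y, hY⟩ : ∃ Y : ℕ, Y = ⌈(a₀ * del + 2 * ε + CB * η₁) * (q * J)⌉₊ + 3 := ⟨_, rfl⟩
  have hqJ : 0 ≤ q * J := mul_nonneg hq.le hJ0
  have hYlo : (a₀ * del + 2 * ε + CB * η₁) * (q * J) + 3 ≤ Y := by
    rw [hY]
    push_cast
    have := Nat.le_ceil ((a₀ * del + 2 * ε + CB * η₁) * (q * (J : ℝ)))
    linarith
  have hYhi : (Y : ℝ) ≤ (a₀ * del + 2 * ε + CB * η₁) * (q * J) + 4 := by
    rw [hY]
    push_cast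
    have := Nat.ceil_lt_add_one (show 0 ≤ (a₀ * del + 2 * ε + CB * η₁) * (q * (J : ℝ)) by positivity)
    linarith
  have hQY : (C + 3) * (Y : ℝ) ≤ ρ₁ / 16 * (q * J) + 4 * (C + 3) := by
    have e1 : (C + 3) * (Y : ℝ) ≤ (C + 3) * ((a₀ * del + 2 * ε + CB * η₁) * (q * J) + 4) :=
      mul_le_mul_of_nonneg_left hYhi (by linarith)
    have e2 : Q * (a₀ * del + 2 * ε + CB * η₁) ≤ ρ₁ / 16 := by
      have e3 : Q * ε ≤ Q * ε₀ := mul_le_mul_of_nonneg_left hεε (by linarith)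
      have e4 : Q * ((a₀ + 1) * del) = Q * (a₀ * del) + Q * del := by ring
      have e5 : 0 < Q * del := by positivity
      have e6 : Q * (a₀ * del + 2 * ε + CB * η₁) = Q * (a₀ * del) + 2 * (Q * ε) +
        Q * (CB * η₁) := by ring
      rw [e6]
      linarith
    have e7 := mul_le_mul_of_nonneg_right e2 hqJ
    rw [← hQ] at e1 ⊢
    have e8 : Q * ((a₀ * del + 2 * ε + CB * η₁) * (q * J) + 4) =
      Q * (a₀ * del + 2 * ε + CB * η₁) * (q * J) + 4 * Q := by ring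
    linarith
  obtain ⟨E, hE⟩ : ∃ E : ℝ, E = (L r (o 0) (o 0) - L (r + 1) (o 0) (o 0) + 4 * (ε * q)) * J :=
    ⟨_, rfl⟩
  have hεQ : 64 * ε ≤ ρ₁ / 4 := by
    have e3 : Q * ε ≤ Q * ε₀ := mul_le_mul_of_nonneg_left hεε (by linarith)
    have e4 : 4 * ε ≤ Q * ε := mul_le_mul_of_nonneg_right hQ1 hε
    linarith
  have hηQ : 64 * η₁ ≤ ρ₁ / 4 := by
    have e4 : 4 * η₁ ≤ Q * η₁ := mul_le_mul_of_nonneg_right hQ1 hη₁0.le
    have e5 : η₁ ≤ CB * η₁ := le_mul_of_one_le_left hη₁0.le hCB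
    have e6 : Q * η₁ ≤ Q * (CB * η₁) := mul_le_mul_of_nonneg_left e5 (by linarith)
    linarith
  have hkE : ∀ k ≤ M, L r (o k) (o k) - L (r + 1) (o k) (o k) ≤
      L r (o 0) (o 0) - L (r + 1) (o 0) (o 0) + 4 * (ε * q) := by
    intro k hk
    have u1 := abs_le.1 (hL k hk r (by omega))
    have u2 := abs_le.1 (hL k hk (r + 1) le_rfl)
    have u3 := abs_le.1 (hL 0 (Nat.zero_le _) r (by omega))
    have u4 := abs_le.1 (hL 0 (Nat.zero_le _) (r + 1) le_rfl)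
    have u5 : o 0 ≤ o k := by
      rw [ho0, hoe, wx1 k hk]
      have := mul_le_mul_of_nonneg_right (hWm 0 k (Nat.zero_le _) hk) hq.le
      linarith
    have u6 : 0 ≤ (Sl (r + 1) - Sl r) * (o k - o 0) := mul_nonneg (by linarith) (by linarith)
    have u7 : (Sl (r + 1) - Sl r) * (o k - o 0) = Sl (r + 1) * (o k - t) - Sl (r + 1) * (o 0 - t) -
      (Sl r * (o k - t) - Sl r * (o 0 - t)) := by ring
    linarith [u1.1, u1.2, u2.1, u2.2, u3.1, u3.2, u4.1, u4.2]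
  obtain ⟨X₁, hX₁⟩ : ∃ X₁ : ℝ, X₁ = ρ₁ / 8 * (q * J) := ⟨_, rfl⟩
  have hp₀ : 0 ≤ L (r + 1) (o 0) (o 0) - ρ₁ * q := by
    have h1 := R.low_at (i := r + 1) hrm (a := o 0) (w := o 0) (hon 0 (by omega)) le_rfl (by
      have h2 := (abs_le.1 (hWq 0 (Nat.zero_le _))).2
      have := R.t1
      linarith)
    have h3 : ρ₁ * q ≤ 1 * q := mul_le_mul_of_nonneg_right hρ₁b hq.le
    linarith
  obtain ⟨B₃, e1, e2, zz, zz', e3, e4⟩ := hev d3 (K₁ := K₁) (P₁ := P₁)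
    (P := ⌈(L (r + 1) (o 0) (o 0) - ρ₁ * q) * J⌉₊) (Y := Y) (M' := M') (E := E) (X₁ := X₁)
    (z₁ := z₁) (z₁' := z₁') (G₁ := G₁) (CL := CL) (Cp := Cp) hinj le_rfl hDc le_rfl
    (fun k hk => ⟨rfl, (hostep k hk.le).le⟩) (by
      have u1 : CB * (η₁ * q * J) = CB * η₁ * (q * J) := by ring
      have u2 : 0 ≤ (a₀ * del + 2 * ε) * (q * J) := by positivity
      have u3 : (a₀ * del + 2 * ε + CB * η₁) * (q * J) = (a₀ * del + 2 * ε) * (q * J) +
        CB * η₁ * (q * J) := by ring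
      rw [u1]
      linarith) (by rw [hY]; omega) hM'
    (fun k hk l hl => by
      rw [hlvE _ _ hl, hlvE _ _ hl]
      have u1 := abs_le.1 (hL k hk.le l hl)
      have u2 := abs_le.1 (hL (k + 1) hk l hl)
      have u3 := abs_le.1 (hSl l hl)
      have u4 : 0 ≤ o (k + 1) - o k := by linarith [hostep k hk.le]
      have u5 : o (k + 1) - o k ≤ del * q := by
        rw [hoe, hoe, wx1 k hk.le, wx1 (k + 1) hk]
        have := mul_le_mul_of_nonneg_right (hW k hk).2 hq.le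
        linarith
      have u6 : Sl l * (o (k + 1) - o k) ≤ a₀ * (del * q) := by
        have v1 := mul_le_mul_of_nonneg_right u3.2 u4
        have v2 := mul_le_mul_of_nonneg_left u5 ha₀
        linarith
      have u7 : -(a₀ * (del * q)) ≤ Sl l * (o (k + 1) - o k) := by
        have v1 := mul_le_mul_of_nonneg_right u3.1 u4
        have v2 := mul_le_mul_of_nonneg_left u5 ha₀
        linarith
      have u8 : Sl l * (o (k + 1) - o k) = Sl l * (o (k + 1) - t) - Sl l * (o k - t) := by ring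
      have u9 : L l (o (k + 1)) (o (k + 1)) - L l (o k) (o k) ≤ (a₀ * del + 2 * ε) * q := by
        linarith [u1.1, u1.2, u2.1, u2.2]
      have u10 : L l (o k) (o k) - L l (o (k + 1)) (o (k + 1)) ≤ (a₀ * del + 2 * ε) * q := by
        linarith [u1.1, u1.2, u2.1, u2.2]
      have v1 := mul_le_mul_of_nonneg_right u9 hJ0
      have v2 := mul_le_mul_of_nonneg_right u10 hJ0
      have v3 : (a₀ * del + 2 * ε + CB * η₁) * (q * J) = (a₀ * del + 2 * ε) * q * J +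
        CB * η₁ * (q * J) := by ring
      have v4 : 0 ≤ CB * η₁ * (q * J) := by positivity
      constructor <;> linarith)
    (fun k hk => by
      rw [hlvE _ _ (by omega), hlvE _ _ le_rfl, hE]
      exact mul_le_mul_of_nonneg_right (hkE k hk) hJ0)
    (by
      rw [hX₁]
      have u1 := mul_le_mul_of_nonneg_right (show η₁ ≤ ρ₁ / 8 by linarith) hqJ
      linarith)
    (by rw [hoM]; exact l1.sub d1) (by
      rw [hlvE _ _ le_rfl, hoM, hX₁]
      have u1 := mul_le_mul_of_nonneg_right hp0 hJ0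
      have u2 : (L (r + 1) (v 0) (v 0) - ρ₁ / 8 * q) * (J : ℝ) = L (r + 1) (v 0) (v 0) * J -
        ρ₁ / 8 * (q * J) := by ring
      linarith) (fun s => (Nat.succ_le_succ (c1 s)).trans hDb)
    (fun y => (Nat.succ_le_succ (c2 y)).trans hDb) c3 c4 (fun ω hω => by
      rw [c5 ω (d1 ω hω), ho0]) (fun ω hω => by
      rw [hoM, ho0]
      refine (l3 ω (d1 ω hω)).trans (pw2 ?_)
      have u1 := mul_le_mul_of_nonneg_right hx0 hJ0
      have u2 := mul_le_mul_of_nonneg_right (hkE M le_rfl) hJ0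
      rw [hoM, ← hE] at u2
      have u3 : (L r (v 0) (v 0) - L (r + 1) (v 0) (v 0) + ρ₁ / 8 * q) * (J : ℝ) =
        (L r (v 0) (v 0) - L (r + 1) (v 0) (v 0)) * J + ρ₁ / 8 * (q * J) := by ring
      rw [hX₁]
      linarith) (by
      rw [hlvE _ _ (by omega), hE, hX₁]
      have u1 : ((⌈(L (r + 1) (o 0) (o 0) - ρ₁ * q) * J⌉₊ : ℕ) : ℝ) <
          (L (r + 1) (o 0) (o 0) - ρ₁ * q) * J + 1 := Nat.ceil_lt_add_one (mul_nonneg hp₀ hJ0)
      have u2 : 64 * ε * (q * J) ≤ ρ₁ / 4 * (q * J) := mul_le_mul_of_nonneg_right hεQ hqJ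
      have u3 : (L (r + 1) (o 0) (o 0) - ρ₁ * q) * (J : ℝ) = L (r + 1) (o 0) (o 0) * J -
        ρ₁ * q * J := by ring
      have u4 : (L r (o 0) (o 0) - L (r + 1) (o 0) (o 0) + 4 * (ε * q)) * (J : ℝ) =
        L r (o 0) (o 0) * J - L (r + 1) (o 0) (o 0) * J + 4 * (ε * (q * J)) := by ring
      have u5 : ρ₁ / 16 * (q * J) = ρ₁ * q * J / 16 := by ring
      have u6 : ρ₁ / 8 * (q * J) = ρ₁ * q * J / 8 := by ring
      have u7 : ρ₁ / 4 * (q * J) = ρ₁ * q * J / 4 := by ring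
      rw [u5] at hQY
      rw [u4, u6]
      rw [u7] at u2
      have u8 : 64 * ε * (q * J) = 64 * (ε * (q * J)) := by ring
      rw [u8] at u2
      have hM'0 : (0 : ℝ) ≤ M' := Nat.cast_nonneg _
      linarith)
  rw [ho0] at e3
  refine ⟨B₃, fun ω hω => b1 ω (d1 ω (e1 ω hω)), ?_, BmV m c r D, zz, zz', bmG, _, e3, ?_,
    fun k hk => ?_⟩
  · have u1 := mul_le_mul_of_nonneg_left d2 hκ₁.le
    have u2 := mul_le_mul_of_nonneg_left e2 (mul_pos hκ₁ hKW).le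
    linarith
  · refine le_trans ?_ (Nat.le_ceil _)
    have u1 : ρ₁ * q ≤ ρ * q := mul_le_mul_of_nonneg_right hρ₁a hq.le
    exact mul_le_mul_of_nonneg_right (by linarith) hJ0
  · obtain ⟨V₂, z₂, z₂', G₂, P₂', f1, f2, f3⟩ := c6 k hk
    have hsub : Sub B₃ B := fun ω hω => d1 ω (e1 ω hω)
    have hDD : D ≤ bmd D := by
      unfold bmd
      omega
    refine ⟨V₂, z₂, z₂', G₂, P₂', ⟨fun v' => ((f1.deg v').trans hDc).trans hDD, f1.dep,
      (f1.sub hsub).cls, (f1.sub hsub).pos⟩, f2, fun ω hω => ?_⟩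
    rw [map_sub, map_sub, e4]
    exact f3 ω (hsub ω hω)

end Pool.BXV65
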