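import Pool.Agent.H65.BXV.Adx
import Pool.Agent.H99.D2.Une
import Pool.Agent.H92.V0F.Vsb
import Pool.Agent.H88.D2.Mcw

/-!
# The closed slope from values, on one event

`slp_two`: the slopes of a closed label and of the chart of the ball of its window. `blx_ev`: the label of
the first window of a chain of balls from a closed slope at the last one.
-/

set_option autoImplicit false

namespace Pool.BXV65

open Finset Real MvPolynomial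
open Pool.Agent.H49.Ent Pool.Agent.H32.Dense Pool.STK Pool.KA Pool.KSAT Pool.K2S Pool.PB Pool.S6C
open Pool.GEN Pool.CHT Pool.CHX Pool.ISO Pool.D2R Pool.CR99
open Pool.GRD (LbP)
open Pool.D2F (grd)

theorem pw2 {x y : ℝ} (h : x ≤ y) : (2 : ℝ) ^ x ≤ (2 : ℝ) ^ y :=
  Real.rpow_le_rpow_of_exponent_le (by norm_num) h

/-- **The slopes of a closed label and of the chart of the ball.** -/
theorem slp_two (D r : ℕ) : ∃ C : ℕ, ∀ {m J : ℕ} {F : Fam m J} {c : ℕ → Fin m} {Dr h w e K₁ P₁ : ℕ}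
    {g : ℕ → ℕ} {κ : ℝ} {B B₁ : F.Ω → Prop} {G : PtT F → ℕ → MvPolynomial (Option (Fin m)) ℝ}
    {H : LnT F → ℕ → MvPolynomial (Option (Fin m)) ℝ}, Set.InjOn c (Set.Iio (r + 1)) → D ≤ Dr →
    K₁ ≤ D → ChOK F c (r + 2) (fun _ => D) w w e g B G H → Clsd F (r + 2) w B G H →
    RelvF F c (r + 1) w w g Dr h κ B G →
    ∀ {V : Type} {z : PtT F → V} {z' : LnT F → V} {G₁ : V → MvPolynomial (Option (Fin m)) ℝ},
    LbP F ((range (r + 1)).image c) (c (r + 1)) K₁ J w P₁ B₁ z z' G₁ → Sub B₁ B →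
    κ * Pe F.p B ≤ Pe F.p B₁ →
    ∃ B₂ : F.Ω → Prop, Sub B₂ B₁ ∧ Pe F.p B₁ / 2 ≤ Pe F.p B₂ ∧ ∀ ω, B₂ ω →
      |eval (bt F ω) (pderiv (some (c r)) (G₁ (z' (slam F w ω)))) -
        eval (bt F ω) (pderiv (some (c r)) (G (ptr F J ω) (r + 1)))| ≤
        2 ^ C * (2 ^ h * (1 / 2 ^ g (r + 1) + 1 / 2 ^ P₁)) * 2 ^ g r := by
  classical
  obtain ⟨C, hpd⟩ := pd_last D r
  refine ⟨C, ?_⟩
  intro m J F c Dr h w e K₁ P₁ g κ B B₁ G H hc hDr hK hch hcl hrel V z z' G₁ hl hB₁ hκ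
  have hdG₁ : ∀ v, DepC c (r + 1) (G₁ v) := fun v b b' h0 hb => hl.dep v b b' h0 fun i hi => by
    obtain ⟨l, hl', rfl⟩ := mem_image.1 hi
    exact hb l (mem_range.1 hl')
  have hd1 : ∀ y, DepC c (r + 1) (G₁ (z y) - G y (r + 1)) := fun y b b' h0 hb => by
    rw [map_sub, map_sub, hdG₁ _ b b' h0 hb, hch.depG y (r + 1) b b' h0 hb]
  have hd2 : ∀ s, DepC c (r + 1) (G₁ (z' s) - H s (r + 1)) := fun s b b' h0 hb => by
    rw [map_sub, map_sub, hdG₁ _ b b' h0 hb, hch.depH s (r + 1) b b' h0 hb]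
  have hg1 : ∀ y, (G₁ (z y) - G y (r + 1)).totalDegree ≤ D := fun y =>
    (totalDegree_sub _ _).trans (max_le ((hl.deg _).trans hK) (hch.degG y _))
  have hg2 : ∀ s, (G₁ (z' s) - H s (r + 1)).totalDegree ≤ D := fun s =>
    (totalDegree_sub _ _).trans (max_le ((hl.deg _).trans hK) (hch.degH s _))
  obtain ⟨M, hM⟩ : ∃ M : ℝ, M = 1 / 2 ^ g (r + 1) + 1 / 2 ^ P₁ := ⟨_, rfl⟩
  have hM0 : 0 < M := by rw [hM]; positivity
  obtain ⟨B₂, h1, h2, h3⟩ := hrel B₁ hB₁ hκ (fun y => G₁ (z y) - G y (r + 1))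
    (fun s => G₁ (z' s) - H s (r + 1)) M (fun y => (hg1 y).trans hDr) (fun s => (hg2 s).trans hDr)
    hd1 hd2 hM0 (fun ω hω => by
      have q1 := hl.pos ω hω
      have q2 := hch.pos ω (hB₁ ω hω) (r + 1) (by omega)
      rw [map_sub, hl.cls ω hω, hM]
      rw [abs_le] at q1 q2 ⊢
      constructor <;> linarith [q1.1, q1.2, q2.1, q2.2]) (fun ω hω b _ => by
      rw [hl.cls ω hω, hcl ω (hB₁ ω hω) (r + 1) (by omega), sub_self, abs_zero]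
      exact hM0.le)
  refine ⟨B₂, h1, h2, fun ω hω => ?_⟩
  have h4 := hpd (ψ := G (ptr F J ω)) (g := g) (a := w) (t := F.t ω) (M := 2 ^ h * M) hc
    (fun l => hch.degG _ l) (fun l => hch.depG _ l) (hd1 (ptr F J ω)) (hg1 _) (by positivity)
    (fun b hb => h3 ω hω b hb) (bt F ω) (by
      show |F.t ω - F.t ω| ≤ _
      rw [sub_self, abs_zero]
      positivity) (fun l hl' => by
      refine (hch.pos ω (hB₁ ω (h1 ω hω)) l (by omega)).trans ?_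
      exact div_le_div_of_nonneg_right (by norm_num) (by positivity))
  rw [← hl.cls ω (h1 ω hω), ← hM]
  rwa [map_sub, map_sub] at h4

/-- **The label of the first window** of a chain of balls from a closed slope at the last one. -/
theorem blx_ev (D r : ℕ) : ∃ C : ℕ, 1 ≤ C ∧ ∀ {m J : ℕ} {F : Fam m J} {c : ℕ → Fin m}
    {Dr M K₁ P₁ P Y M' : ℕ} {C₀ a Eb ηm : ℝ} {o η σ : ℕ → ℝ} {lv b : ℕ → ℕ → ℝ}
    {κ : ℝ} {z : ℕ → ℕ → ℕ} {B : F.Ω → Prop} {g₀ : ℕ → ℕ → ℕ}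
    {G : ℕ → PtT F → ℕ → MvPolynomial (Option (Fin m)) ℝ}
    {H : ℕ → LnT F → ℕ → MvPolynomial (Option (Fin m)) ℝ}
    (_ : WinB F c (r + 1) D Dr M 0 C₀ a Eb ηm o η σ lv b κ z B g₀ G H) {E X₁ : ℝ}
    {V : Type} {z₁ : PtT F → V} {z₁' : LnT F → V} {G₁ : V → MvPolynomial (Option (Fin m)) ℝ}
    {CL : LnT F → MvPolynomial (Option (Fin m)) ℝ} {Cp : PtT F → MvPolynomial (Option (Fin m)) ℝ},
    Set.InjOn c (Set.Iio (r + 2)) → D ≤ Dr → K₁ ≤ D → κ ≤ 1 / 2 →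
    (∀ k < M, z k 0 = ⌊o (k + 1) * J⌋₊ - ⌊o k * J⌋₊ ∧ o k ≤ o (k + 1)) →
    C₀ * (ηm * J) ≤ Y → 3 ≤ Y → M ≤ 2 ^ M' →
    (∀ k < M, ∀ l ≤ r + 1, (lv (k + 1) l - lv k l) * J ≤ Y ∧ (lv k l - lv (k + 1) l) * J ≤ Y) →
    (∀ k ≤ M, (lv k r - lv k (r + 1)) * J ≤ E) → ηm * J ≤ X₁ →
    LbP F ((range (r + 1)).image c) (c (r + 1)) K₁ J ⌊o M * J⌋₊ P₁ B z₁ z₁' G₁ →
    lv M (r + 1) * J - X₁ ≤ P₁ →
    (∀ s, (CL s).totalDegree + 1 ≤ D) → (∀ y, (Cp y).totalDegree + 1 ≤ D) →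
    (∀ s, DepC c (r + 1) (CL s)) → (∀ y, DepC c (r + 1) (Cp y)) →
    (∀ ω, B ω → Cp (ptr F J ω) = CL (slam F ⌊o 0 * J⌋₊ ω)) →
    (∀ ω, B ω → |eval (bt F ω) (pderiv (some (c r)) (G₁ (z₁' (slam F ⌊o M * J⌋₊ ω)))) -
      eval (bt F ω) (CL (slam F ⌊o 0 * J⌋₊ ω))| ≤ (2 : ℝ) ^ (E + X₁)) →
    P + (C + 3) * Y + (E + X₁ + M') ≤ lv 0 r * J →
    ∃ B₃ : F.Ω → Prop, Sub B₃ B ∧ Pe F.p B ≤ 4 * Pe F.p B₃ ∧
      ∃ (zz : PtT F → BmV m c r D) (zz' : LnT F → BmV m c r D),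
        LbP F ((range (r + 1)).image c) (c (r + 1)) (bmd D) J ⌊o 0 * J⌋₊ P B₃ zz zz' bmG ∧
        ∀ s x, eval x (pderiv (some (c r)) (bmG (zz' s))) = eval x (CL s) := by
  classical
  obtain ⟨C₁, hC₁, htel⟩ := Pool.TN.winb_tel D (r + 1)
  obtain ⟨C₂, htwo⟩ := slp_two D r
  refine ⟨C₁ + C₂ + 2, by omega, ?_⟩
  intro m J F c Dr M K₁ P₁ P Y M' C₀ a Eb ηm o η σ lv b κ z B g₀ G H W E X₁ V z₁ z₁' G₁ CL Cp hc
    hDr hK₁ hκ hz hC₀Y hY3 hM hlv hE hηX hl hP₁ hdL hdp hpL hpp hclo hsl hPn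
  have hJ : (0 : ℝ) ≤ J := Nat.cast_nonneg J
  have h2 : (0 : ℝ) < 2 := by norm_num
  have hc1 : Set.InjOn c (Set.Iio (r + 1)) := hc.mono fun y hy => by
    rw [Set.mem_Iio] at hy ⊢
    omega
  have hYR : (3 : ℝ) ≤ Y := by exact_mod_cast hY3
  have hη0 : 0 ≤ ηm * J := mul_nonneg ((W.hη 0 (Nat.zero_le _)).1.trans (W.hη 0
    (Nat.zero_le _)).2) hJ
  have hηY : ηm * J ≤ Y := (le_mul_of_one_le_left hη0 W.C1).trans hC₀Y
  have hhJ : ∀ k ≤ M, (⌊η k * J⌋₊ : ℝ) ≤ ηm * J := fun k hk =>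
    (Nat.floor_le (mul_nonneg (W.hη k hk).1 hJ)).trans
      (mul_le_mul_of_nonneg_right (W.hη k hk).2 hJ)
  have hg : ∀ k ≤ M, ∀ l ≤ r + 1, lv k l * J - ηm * J ≤ g₀ k l ∧ (g₀ k l : ℝ) ≤ lv k l * J :=
    fun k hk l hl => by
      obtain ⟨-, -, q1, q2⟩ := W.g_num hk hl
      exact ⟨q1, q2⟩
  obtain ⟨Z, hZ⟩ : ∃ Z : ℝ, Z = E + X₁ + M' + (C₁ + C₂ + 1) * Y := ⟨_, rfl⟩
  have hC₁Y : 1 * (Y : ℝ) ≤ C₁ * Y :=
    mul_le_mul_of_nonneg_right (by exact_mod_cast hC₁) (Nat.cast_nonneg _)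
  have hC₂Y : (C₂ : ℝ) * 1 ≤ C₂ * Y := mul_le_mul_of_nonneg_left (by linarith) (Nat.cast_nonneg _)
  have hM'0 : (0 : ℝ) ≤ M' := Nat.cast_nonneg _
  have hX0 : 0 ≤ X₁ := hη0.trans hηX
  have hZe : Z = E + X₁ + M' + C₁ * Y + C₂ * Y + Y := by rw [hZ]; ring
  have hC₂0 : (0 : ℝ) ≤ C₂ := Nat.cast_nonneg _
  -- the telescoping
  have htel' := htel W (f := fun k => k) (jj := fun _ => 0) (n := M) (i := r + 1) (Y := Y)
    (ρ := (2 : ℝ) ^ (E + ηm * J)) hc (by omega) le_rfl (fun k hk => hk)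
    (fun k hk => ⟨le_rfl, (hz k hk).1, (hz k hk).2⟩) hC₀Y hY3 hlv (fun k hk => by
      have q1 := (hg k hk.le r (by omega)).2
      have q2 := (hg k hk.le (r + 1) le_rfl).1
      have q3 := hE k hk.le
      rw [← Real.rpow_natCast, ← Real.rpow_natCast, ← Real.rpow_sub h2]
      refine pw2 ?_
      show (g₀ k r : ℝ) - g₀ k (r + 1) ≤ _
      have e1 : (lv k r - lv k (r + 1)) * (J : ℝ) = lv k r * J - lv k (r + 1) * J := by ring
      rw [e1] at q3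
      linarith)
  have ht1 : ∀ ω, B ω → |eval (bt F ω) (pderiv (some (c r)) (G M (ptr F J ω) (r + 1))) -
      eval (bt F ω) (pderiv (some (c r)) (G 0 (ptr F J ω) (r + 1)))| ≤ (2 : ℝ) ^ Z := by
    intro ω hω
    refine (htel' ω hω).trans ?_
    have q1 : (M : ℝ) ≤ (2 : ℝ) ^ (M' : ℝ) := by
      rw [Real.rpow_natCast]
      exact_mod_cast hM
    calc (M : ℝ) * (2 ^ (C₁ * Y) * (2 : ℝ) ^ (E + ηm * J)) ≤
        (2 : ℝ) ^ (M' : ℝ) * (2 ^ (C₁ * Y) * (2 : ℝ) ^ (E + ηm * J)) :=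
          mul_le_mul_of_nonneg_right q1 (by positivity)
      _ = (2 : ℝ) ^ ((M' : ℝ) + (((C₁ * Y : ℕ) : ℝ) + (E + ηm * J))) := by
          rw [Real.rpow_add h2 (M' : ℝ), Real.rpow_add h2 ((C₁ * Y : ℕ) : ℝ),
            Real.rpow_natCast 2 (C₁ * Y)]
      _ ≤ _ := pw2 (by
          push_cast
          rw [hZe]
          have : 0 ≤ (C₂ : ℝ) * Y := by positivity
          linarith)
  -- the caller's label
  obtain ⟨B₂, b1, b2, b3⟩ := htwo (Dr := Dr) (κ := κ) hc1 hDr hK₁ (W.ev M le_rfl).ball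
    (W.ev M le_rfl).cls (W.ev M le_rfl).relb hl (fun ω h => h) (by
      have := mul_le_mul_of_nonneg_right hκ (Pe_nonneg F.isLaw B)
      have h0 := Pe_nonneg F.isLaw B
      linarith)
  have ht2 : ∀ ω, B₂ ω → |eval (bt F ω) (pderiv (some (c r)) (G₁ (z₁' (slam F ⌊o M * J⌋₊ ω)))) -
      eval (bt F ω) (pderiv (some (c r)) (G M (ptr F J ω) (r + 1)))| ≤ (2 : ℝ) ^ Z := by
    intro ω hω
    refine (b3 ω hω).trans ?_
    have q1 := (hg M le_rfl r (by omega)).2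
    have q2 := (hg M le_rfl (r + 1) le_rfl).1
    have q3 := hE M le_rfl
    have e1 : (lv M r - lv M (r + 1)) * (J : ℝ) = lv M r * J - lv M (r + 1) * J := by ring
    rw [e1] at q3
    have u1 : (1 : ℝ) / 2 ^ g₀ M (r + 1) ≤ (2 : ℝ) ^ (-(lv M (r + 1) * J) + X₁) := by
      rw [one_div, ← Real.rpow_natCast, ← Real.rpow_neg h2.le]
      exact pw2 (by linarith)
    have u2 : (1 : ℝ) / 2 ^ P₁ ≤ (2 : ℝ) ^ (-(lv M (r + 1) * J) + X₁) := by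
      rw [one_div, ← Real.rpow_natCast, ← Real.rpow_neg h2.le]
      exact pw2 (by linarith)
    calc _ ≤ 2 ^ C₂ * (2 ^ ⌊η M * J⌋₊ * ((2 : ℝ) ^ (-(lv M (r + 1) * J) + X₁) +
          (2 : ℝ) ^ (-(lv M (r + 1) * J) + X₁))) * 2 ^ g₀ M r := by gcongr
      _ = (2 : ℝ) ^ ((C₂ : ℝ) + ((⌊η M * J⌋₊ : ℝ) + (1 + (-(lv M (r + 1) * J) + X₁))) +
          (g₀ M r : ℝ)) := by
          rw [← two_mul, Real.rpow_add h2 _ (g₀ M r : ℝ), Real.rpow_add h2 (C₂ : ℝ),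
            Real.rpow_add h2 (⌊η M * J⌋₊ : ℝ), Real.rpow_add h2 1,
            Real.rpow_natCast, Real.rpow_natCast, Real.rpow_natCast, Real.rpow_one]
      _ ≤ _ := pw2 (by
          have q4 := hhJ M le_rfl
          rw [hZe]
          linarith)
  -- the slope at the first window
  have hK : ∀ ω, B₂ ω → |eval (bt F ω) (pderiv (some (c r)) (H 0 (slam F ⌊o 0 * J⌋₊ ω) (r + 1))) -
      eval (bt F ω) (pderiv (some (c r)) (adX (some (c r)) (CL (slam F ⌊o 0 * J⌋₊ ω))))| ≤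
      (2 : ℝ) ^ (Z + 2) := by
    intro ω hω
    have hωB := b1 ω hω
    rw [pd_adX, ← (W.ev 0 (Nat.zero_le _)).cls ω hωB (r + 1) (by omega)]
    have q1 := ht1 ω hωB
    have q2 := ht2 ω hω
    have q3 := (hsl ω hωB).trans (pw2 (show E + X₁ ≤ Z by
      rw [hZe]
      have : 0 ≤ (C₂ : ℝ) * Y := by positivity
      linarith))
    have e2 : (2 : ℝ) ^ (Z + 2) = 4 * (2 : ℝ) ^ Z := by
      rw [Real.rpow_add h2]
      norm_num
      ring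
    have h0 : (0 : ℝ) < (2 : ℝ) ^ Z := by positivity
    rw [e2]
    rw [abs_le] at q1 q2 q3 ⊢
    constructor <;> linarith [q1.1, q1.2, q2.1, q2.2, q3.1, q3.2]
  have hA1 : ∀ s, (adX (some (c r)) (CL s)).totalDegree ≤ D := fun s =>
    (deg_adX _ _).trans (hdL s)
  have hA2 : ∀ y, (adX (some (c r)) (Cp y)).totalDegree ≤ D := fun y =>
    (deg_adX _ _).trans (hdp y)
  have h0b := (W.ev 0 (Nat.zero_le _)).ball
  have h0c := (W.ev 0 (Nat.zero_le _)).cls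
  obtain ⟨B₃, c1, c2, c3⟩ := pol_box (ML := fun s => adX (some (c r)) (CL s))
    (Mp := fun y => adX (some (c r)) (Cp y)) (K := (2 : ℝ) ^ (Z + 2)) (B₁ := B₂) hDr
    h0b.degG h0b.degH h0b.depG h0b.depH h0c (W.ev 0 (Nat.zero_le _)).relb
    hA1 hA2 (fun s => dep_adX (hpL s)) (fun y => dep_adX (hpp y)) b1 (by
      have := mul_le_mul_of_nonneg_right hκ (Pe_nonneg F.isLaw B)
      linarith) (fun ω hω => by
      rw [hclo ω (b1 ω hω)]) hK (by positivity)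
  have hB₃ : Sub B₃ B := fun ω hω => b1 ω (c1 ω hω)
  obtain ⟨zz, zz', hlb, hlC⟩ := bmg_lbp (F := F) (c := c) (r := r) (D := D) (P := P)
    (K₁ := 2 ^ ⌊η 0 * J⌋₊ * (2 : ℝ) ^ (Z + 2)) (h0b.sub hB₃) (fun ω hω => h0c ω (hB₃ ω hω)) hA1 hA2
    (fun s => dep_adX (hpL s)) (fun y => dep_adX (hpp y)) (fun ω hω => by
      rw [hclo ω (hB₃ ω hω)]) c3 hc1 (by
      obtain ⟨q1, -⟩ := hg 0 (Nat.zero_le _) r (by omega)
      obtain ⟨q2, -⟩ := hg 0 (Nat.zero_le _) (r + 1) le_rfl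
      have q3 := hE 0 (Nat.zero_le _)
      have q4 := hhJ 0 (Nat.zero_le _)
      have e1 : (lv 0 r - lv 0 (r + 1)) * (J : ℝ) = lv 0 r * J - lv 0 (r + 1) * J := by ring
      rw [e1] at q3
      have e3 : ((C₁ + C₂ + 2 : ℕ) : ℝ) = C₁ + C₂ + 2 := by push_cast; ring
      rw [e3] at hPn
      have e4 : ((C₁ : ℝ) + C₂ + 2 + 3) * Y = C₁ * Y + C₂ * Y + 5 * Y := by ring
      rw [e4] at hPn
      have hC₂Y0 : 0 ≤ (C₂ : ℝ) * Y := by positivity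
      have e9 : (1 : ℝ) / 2 ^ P = (2 : ℝ) ^ (-(P : ℝ) - 1) + (2 : ℝ) ^ (-(P : ℝ) - 1) := by
        rw [← two_mul, Real.rpow_sub_one h2.ne', Real.rpow_neg h2.le, Real.rpow_natCast]
        field_simp
      rw [e9]
      refine add_le_add ?_ ?_
      · rw [one_div, ← Real.rpow_natCast, ← Real.rpow_neg h2.le]
        exact pw2 (by linarith)
      · have e10 : (2 : ℝ) ^ ⌊η 0 * J⌋₊ * (2 : ℝ) ^ (Z + 2) * (1 / 2 ^ g₀ 0 r) =
            (2 : ℝ) ^ ((⌊η 0 * J⌋₊ : ℝ) + (Z + 2) - (g₀ 0 r : ℝ)) := by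
          rw [Real.rpow_sub h2, Real.rpow_add h2 _ (Z + 2), Real.rpow_natCast, Real.rpow_natCast]
          ring
        rw [e10]
        exact pw2 (by rw [hZe]; linarith))
  refine ⟨B₃, hB₃, by linarith, zz, zz', hlb, fun s x => ?_⟩
  rw [bmg_dir hc1, hlC, pd_adX]

end Pool.BXV65
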